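import Pool.Agent.Y579.NL.Defs

/-!
Greedy homogeneous sets, Ramsey's theorem for pairs, and computability of the output of a word
function (project NL of helper579).
-/

namespace Pool.Agent.Y662.NL

open Pool.Agent.Y579.NL Pool.Agent.Results.MP_743c94_lc.Full

/-! ### The reservoir of a finite word -/

/-- The elements of `X` above `F` all of whose pairs with `F` have colour `e`. -/
def Yset (c : ℕ → Bool) (X : Set ℕ) (e : Bool) (F : List ℕ) : Set ℕ :=
  {y | y ∈ X ∧ ∀ x ∈ F, x < y ∧ c (Nat.pair x y) = e}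

theorem exists_hom (c : ℕ → Bool) (X : Set ℕ) (hX : X.Infinite) (e : Bool)
    (H : ∀ F : List ℕ, (Yset c X e F).Infinite →
      ∃ y ∈ Yset c X e F, (Yset c X e (y :: F)).Infinite) :
    ∃ S : Set ℕ, S.Infinite ∧ S ⊆ X ∧ Hom c e S := by
  choose nx h1 h2 using H
  have h0 : (Yset c X e []).Infinite := by
    have : Yset c X e [] = X := by ext y; simp [Yset]
    rw [this]; exact hX
  let g : ℕ → {F : List ℕ // (Yset c X e F).Infinite} := fun n =>
    Nat.rec ⟨[], h0⟩ (fun _ F => ⟨nx F.1 F.2 :: F.1, h2 F.1 F.2⟩) n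
  have hg : ∀ n, (g (n + 1)).1 = nx (g n).1 (g n).2 :: (g n).1 := fun n => rfl
  let y : ℕ → ℕ := fun n => nx (g n).1 (g n).2
  have hy : ∀ n, y n ∈ Yset c X e (g n).1 := fun n => h1 _ _
  have hmem : ∀ m n, m < n → y m ∈ (g n).1 := by
    intro m n hmn
    induction n with
    | zero => omega
    | succ n ih =>
      rw [hg n]
      rcases Nat.lt_succ_iff_lt_or_eq.1 hmn with h | h
      · exact List.mem_cons_of_mem _ (ih h)
      · subst h; exact List.mem_cons_self
  have hlt : ∀ m n, m < n → y m < y n ∧ c (Nat.pair (y m) (y n)) = e := fun m n hmn =>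
    (hy n).2 _ (hmem m n hmn)
  have hmono : StrictMono y := fun m n hmn => (hlt m n hmn).1
  refine ⟨Set.range y, Set.infinite_range_of_injective hmono.injective, ?_, ?_⟩
  · rintro _ ⟨n, rfl⟩; exact (hy n).1
  · rintro _ ⟨m, rfl⟩ _ ⟨n, rfl⟩ hmn
    exact (hlt m n (hmono.lt_iff_lt.1 hmn)).2

/-! ### The greedy set -/

/-- One step of the greedy construction. -/
def stepG (c Y : ℕ → Bool) (e : Bool) (L : List Bool) : Bool :=
  Y L.length && Helper446.RE.allB
    (fun m => !(L.getD m false) || (c (Nat.pair m L.length) == !e)) L.length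

/-- The word of the greedy decisions. -/
def lst (c Y : ℕ → Bool) (e : Bool) : ℕ → List Bool
  | 0 => []
  | n + 1 => lst c Y e n ++ [stepG c Y e (lst c Y e n)]

/-- The greedy set. -/
def gre (c Y : ℕ → Bool) (e : Bool) (n : ℕ) : Bool := stepG c Y e (lst c Y e n)

theorem lst_eq (c Y : ℕ → Bool) (e : Bool) (n : ℕ) : lst c Y e n = pre (gre c Y e) n := by
  induction n with
  | zero => rfl
  | succ n ih =>
    have h : pre (gre c Y e) (n + 1) = pre (gre c Y e) n ++ [gre c Y e n] := by
      simp [pre, List.range_succ]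
    rw [h, ← ih]; rfl

theorem gre_iff (c Y : ℕ → Bool) (e : Bool) (n : ℕ) : gre c Y e n = true ↔
    Y n = true ∧ ∀ m < n, gre c Y e m = true → c (Nat.pair m n) = !e := by
  have h1 : gre c Y e n = stepG c Y e (pre (gre c Y e) n) := by
    rw [← lst_eq]; rfl
  rw [h1, stepG, Bool.and_eq_true, Helper446.RE.allB_iff, pre_length]
  refine and_congr_right fun _ => forall_congr' fun m => forall_congr' fun hm => ?_
  rw [pre_getD _ hm, Bool.or_eq_true, beq_iff_eq]
  cases gre c Y e m <;> simp

theorem hom_gre (c Y : ℕ → Bool) (e : Bool) : Hom c (!e) {n | gre c Y e n = true} := by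
  intro x hx y hy hxy
  exact ((gre_iff c Y e y).1 hy).2 x hxy hx

theorem computable_stepG {c Y : ℕ → Bool} (hc : Computable c) (hY : Computable Y) (e : Bool) :
    Computable (stepG c Y e) := by
  have hl : Computable fun L : List Bool => L.length := Computable.list_length
  have h1 : Computable fun x : List Bool × ℕ => x.1.getD x.2 false :=
    (Primrec.list_getD false).to_comp.comp Computable.fst Computable.snd
  have h2 : Computable fun x : List Bool × ℕ => c (Nat.pair x.2 x.1.length) :=
    hc.comp (Primrec₂.natPair.to_comp.comp Computable.snd (hl.comp Computable.fst))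
  have h3 : Computable fun x : List Bool × ℕ => (c (Nat.pair x.2 x.1.length) == !e) :=
    (Primrec.dom_bool (fun b => b == !e)).to_comp.comp h2
  have h4 : Computable₂ fun (L : List Bool) (m : ℕ) =>
      (!(L.getD m false) || (c (Nat.pair m L.length) == !e)) :=
    Primrec.or.to_comp.comp (Primrec.not.to_comp.comp h1) h3
  exact Primrec.and.to_comp.comp (hY.comp hl) (Helper446.RE.computable_allB h4 hl)

theorem computable_lst {c Y : ℕ → Bool} (hc : Computable c) (hY : Computable Y) (e : Bool) :
    Computable (lst c Y e) := by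
  have h := Computable.nat_rec (f := fun k : ℕ => k) (g := fun _ : ℕ => ([] : List Bool))
    (h := fun (_ : ℕ) (y : ℕ × List Bool) => y.2 ++ [stepG c Y e y.2]) Computable.id
    (Computable.const [])
    (Computable.list_concat.comp (Computable.snd.comp Computable.snd)
      ((computable_stepG hc hY e).comp (Computable.snd.comp Computable.snd)))
  refine h.of_eq fun n => ?_
  induction n with
  | zero => rfl
  | succ n ih => simp only [lst]; rw [← ih]

theorem computable_gre {c Y : ℕ → Bool} (hc : Computable c) (hY : Computable Y) (e : Bool) :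
    Computable (gre c Y e) := (computable_stepG hc hY e).comp (computable_lst hc hY e)

theorem infinite_gre {c : ℕ → Bool} {X : Set ℕ} {e : Bool} {F : List ℕ}
    (hF : (Yset c X e F).Infinite) (hfin : ∀ y ∈ Yset c X e F, (Yset c X e (y :: F)).Finite)
    {Y : ℕ → Bool} (hY : ∀ n, Y n = true ↔ n ∈ Yset c X e F) :
    {n | gre c Y e n = true}.Infinite := by
  intro hM
  have h1 : (⋃ m ∈ {n | gre c Y e n = true}, (Yset c X e (m :: F) ∪ Set.Iic m)).Finite := by
    refine hM.biUnion fun m hm => ?_
    exact (hfin m ((hY m).1 ((gre_iff c Y e m).1 hm).1)).union (Set.finite_Iic m)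
  obtain ⟨y, hy1, hy2⟩ := (hF.sdiff h1).nonempty
  have h2 : ∀ m, gre c Y e m = true → m < y ∧ c (Nat.pair m y) = !e := by
    intro m hm
    have h3 : y ∉ Yset c X e (m :: F) ∪ Set.Iic m := fun h =>
      hy2 (Set.mem_biUnion (show m ∈ {n | gre c Y e n = true} from hm) h)
    have h4 : m < y := by
      by_contra h
      exact h3 (Or.inr (Set.mem_Iic.2 (not_lt.1 h)))
    refine ⟨h4, ?_⟩
    by_contra h
    have h5 : c (Nat.pair m y) = e := by
      revert h; cases c (Nat.pair m y) <;> cases e <;> simp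
    refine h3 (Or.inl ⟨hy1.1, ?_⟩)
    intro x hx
    rcases List.mem_cons.1 hx with rfl | hx
    · exact ⟨h4, h5⟩
    · exact hy1.2 x hx
  have h6 : gre c Y e y = true := (gre_iff c Y e y).2 ⟨(hY y).2 hy1, fun m _ hm => (h2 m hm).2⟩
  exact absurd (h2 y h6).1 (lt_irrefl y)

theorem exists_stop (c : ℕ → Bool) (X : Set ℕ) (hX : X.Infinite) (e : Bool)
    (hno : ¬ ∃ S : Set ℕ, S.Infinite ∧ S ⊆ X ∧ Hom c e S) :
    ∃ F : List ℕ, (Yset c X e F).Infinite ∧
      ∀ y ∈ Yset c X e F, (Yset c X e (y :: F)).Finite := by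
  by_contra hcon
  refine hno (exists_hom c X hX e fun F hF => ?_)
  by_contra h
  refine hcon ⟨F, hF, fun y hy => ?_⟩
  by_contra hy2
  exact h ⟨y, hy, hy2⟩

theorem computable_Yset {c X : ℕ → Bool} (hc : Computable c) (hX : Computable X) (e : Bool)
    (F : List ℕ) : ∃ Y : ℕ → Bool, Computable Y ∧
      ∀ n, Y n = true ↔ n ∈ Yset c {n | X n = true} e F := by
  induction F with
  | nil => exact ⟨X, hX, fun n => by simp [Yset]⟩
  | cons x F ih =>
    obtain ⟨Y, hY, h⟩ := ih
    obtain ⟨u, hu, hu2⟩ := ComputablePred.computable_iff.1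
      (Helper446.RE.cp_lt (α := ℕ) (f := fun _ => x) (g := fun n => n)
        (Computable.const x) Computable.id)
    have hu3 : ∀ n, u n = true ↔ x < n := fun n => (iff_of_eq (congrFun hu2 n)).symm
    have h1 : Computable fun n : ℕ => (c (Nat.pair x n) == e) :=
      (Primrec.dom_bool (fun b => b == e)).to_comp.comp
        (hc.comp (Primrec₂.natPair.to_comp.comp (Computable.const x) Computable.id))
    refine ⟨fun n => Y n && (u n && (c (Nat.pair x n) == e)),
      Primrec.and.to_comp.comp hY (Primrec.and.to_comp.comp hu h1), fun n => ?_⟩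
    rw [Bool.and_eq_true, Bool.and_eq_true, h, hu3, beq_iff_eq]
    constructor
    · rintro ⟨⟨h2, h3⟩, h4, h5⟩
      refine ⟨h2, fun z hz => ?_⟩
      rcases List.mem_cons.1 hz with rfl | hz
      · exact ⟨h4, h5⟩
      · exact h3 z hz
    · rintro ⟨h2, h3⟩
      exact ⟨⟨h2, fun z hz => h3 z (List.mem_cons_of_mem _ hz)⟩, h3 x List.mem_cons_self⟩

theorem t_GREEDY : GREEDY := by
  intro c X hc hX hinf e hno
  obtain ⟨F, hF, hfin⟩ := exists_stop c {n | X n = true} hinf e hno
  obtain ⟨Y, hY, hY2⟩ := computable_Yset hc hX e F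
  refine ⟨gre c Y e, computable_gre hc hY e, infinite_gre hF hfin hY2, ?_, hom_gre c Y e⟩
  intro n hn
  exact ((hY2 n).1 ((gre_iff c Y e n).1 hn).1).1

theorem t_RAMSEY : RAMSEY := by
  classical
  intro c X hX
  by_cases hS : ∃ S : Set ℕ, S.Infinite ∧ S ⊆ X ∧ Hom c false S
  · obtain ⟨S, h1, h2, h3⟩ := hS
    exact ⟨false, S, h2, h1, h3⟩
  · obtain ⟨F, hF, hfin⟩ := exists_stop c X hX false hS
    have hY2 : ∀ n, (fun n => decide (n ∈ Yset c X false F)) n = true ↔
        n ∈ Yset c X false F := fun n => by simp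
    refine ⟨true, _, ?_, infinite_gre hF hfin hY2, hom_gre c _ false⟩
    intro n hn
    exact ((hY2 n).1 ((gre_iff c _ false n).1 hn).1).1

theorem computable_pre {p : ℕ → Bool} (hp : Computable p) : Computable (pre p) := by
  have h := Computable.nat_rec (f := fun k : ℕ => k) (g := fun _ : ℕ => ([] : List Bool))
    (h := fun (_ : ℕ) (y : ℕ × List Bool) => y.2 ++ [p y.1]) Computable.id
    (Computable.const [])
    (Computable.list_concat.comp (Computable.snd.comp Computable.snd)
      (hp.comp (Computable.fst.comp Computable.snd)))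
  refine h.of_eq fun n => ?_
  induction n with
  | zero => rfl
  | succ n ih =>
    have h2 : pre p (n + 1) = pre p n ++ [p n] := by simp [pre, List.range_succ]
    rw [h2, ← ih]

theorem t_COMPUT : COMPUT := by
  intro Φ p q hΦ hp hq
  refine Helper446.RE.computable_of_graph ?_
  have h1 : REPred fun x : ℕ × Bool => ∃ k : ℕ, Φ (pre p k) x.1 = some x.2 := by
    refine Helper446.RE.exN (p := fun (x : ℕ × Bool) k => Φ (pre p k) x.1 = some x.2) ?_
    refine Helper446.RE.eq ?_ (Computable.option_some.comp (Computable.snd.comp Computable.fst))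
    exact hΦ.comp ((computable_pre hp).comp Computable.snd)
      (Computable.fst.comp Computable.fst)
  refine h1.of_eq fun x => ?_
  constructor
  · rintro ⟨k, hk⟩; exact ((hq x.1).2 k x.2 hk).symm
  · intro h
    obtain ⟨k, hk⟩ := (hq x.1).1
    exact ⟨k, by rw [hk, h]⟩

end Pool.Agent.Y662.NL
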